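import Pool.Agent.Lib_helper94.Inv.Null

/-!
# Closed paths along countably many mirrors form a null set of lines
-/

set_option autoImplicit false
set_option linter.unusedSectionVars false

namespace Pool.Agent.Lib_helper94.Inv

open Set MeasureTheory
open scoped RealInnerProductSpace

variable {E : Type*} [NormedAddCommGroup E] [InnerProductSpace ℝ E] [FiniteDimensional ℝ E]
  [MeasurableSpace E] [BorelSpace E]

/-- Parameters of a path: the line, the normals, the lengths. -/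
abbrev Par (E : Type*) : Type _ := (E × E) × (ℕ → E) × (ℕ → ℝ) × ℝ × ℝ

theorem dir_continuous (i : ℕ) : Continuous fun q : Par E => dir q.1.2 q.2.1 i := by
  induction i with
  | zero => exact continuous_snd.comp continuous_fst
  | succ i ih =>
    show Continuous fun q : Par E =>
      dir q.1.2 q.2.1 i - (2 * ⟪dir q.1.2 q.2.1 i, q.2.1 i⟫) • q.2.1 i
    have hm : Continuous fun q : Par E => q.2.1 i := by fun_prop
    exact ih.sub ((continuous_const.mul (ih.inner hm)).smul hm)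

theorem pt_continuous (i : ℕ) :
    Continuous fun q : Par E => pt q.1.1 q.1.2 q.2.1 q.2.2.1 q.2.2.2.1 i := by
  induction i with
  | zero =>
    show Continuous fun q : Par E => q.1.1 + q.2.2.2.1 • q.1.2
    fun_prop
  | succ i ih =>
    show Continuous fun q : Par E => pt q.1.1 q.1.2 q.2.1 q.2.2.1 q.2.2.2.1 i
      + q.2.2.1 i • dir q.1.2 q.2.1 (i + 1)
    have ht : Continuous fun q : Par E => q.2.2.1 i := by fun_prop
    exact ih.add (ht.smul (dir_continuous (i + 1)))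

/-- The box of bounded parameters. -/
def Box (E : Type*) [NormedAddCommGroup E] (M : ℕ) : Set (Par E) :=
  (Metric.closedBall 0 M ×ˢ Metric.closedBall 0 M) ×ˢ
    (Set.pi univ fun _ => Metric.sphere 0 1) ×ˢ
      (Set.pi univ fun _ => Icc (1 / ((M : ℝ) + 1)) (M + 1)) ×ˢ Icc (-(M : ℝ)) M ×ˢ Icc (-(M : ℝ)) M

theorem box_compact (M : ℕ) : IsCompact (Box E M) := by
  unfold Box
  refine ((isCompact_closedBall _ _).prod (isCompact_closedBall _ _)).prod ?_
  refine (isCompact_univ_pi fun _ => isCompact_sphere _ _).prod ?_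
  exact (isCompact_univ_pi fun _ => isCompact_Icc).prod (isCompact_Icc.prod isCompact_Icc)

/-- The closed conditions. -/
def Cond (Q : ℕ → Set E) (K : ℕ) : Set (Par E) :=
  {q | (∀ i ≤ K, pt q.1.1 q.1.2 q.2.1 q.2.2.1 q.2.2.2.1 i ∈ Q i) ∧
    (∀ i ≤ K, ∀ y ∈ Q i, ⟪y - pt q.1.1 q.1.2 q.2.1 q.2.2.1 q.2.2.2.1 i, q.2.1 i⟫ ≤ 0) ∧
    (∀ i ≤ K, ⟪dir q.1.2 q.2.1 i, q.2.1 i⟫ ≤ 0) ∧ dir q.1.2 q.2.1 (K + 1) = q.1.2 ∧
    pt q.1.1 q.1.2 q.2.1 q.2.2.1 q.2.2.2.1 K = q.1.1 + q.2.2.2.2 • q.1.2}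

theorem cond_closed {Q : ℕ → Set E} (hQ : ∀ i, IsClosed (Q i)) (K : ℕ) :
    IsClosed (Cond Q K) := by
  have hm : ∀ i, Continuous fun q : Par E => q.2.1 i := fun i => by fun_prop
  have h1 : IsClosed {q : Par E | ∀ i ≤ K, pt q.1.1 q.1.2 q.2.1 q.2.2.1 q.2.2.2.1 i ∈ Q i} := by
    have : {q : Par E | ∀ i ≤ K, pt q.1.1 q.1.2 q.2.1 q.2.2.1 q.2.2.2.1 i ∈ Q i}
        = ⋂ i ∈ {i | i ≤ K}, {q : Par E | pt q.1.1 q.1.2 q.2.1 q.2.2.1 q.2.2.2.1 i ∈ Q i} := by
      ext q; simp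
    rw [this]
    exact isClosed_biInter fun i _ => (hQ i).preimage (pt_continuous i)
  have h2 : IsClosed {q : Par E | ∀ i ≤ K, ∀ y ∈ Q i,
      ⟪y - pt q.1.1 q.1.2 q.2.1 q.2.2.1 q.2.2.2.1 i, q.2.1 i⟫ ≤ 0} := by
    have : {q : Par E | ∀ i ≤ K, ∀ y ∈ Q i,
        ⟪y - pt q.1.1 q.1.2 q.2.1 q.2.2.1 q.2.2.2.1 i, q.2.1 i⟫ ≤ 0}
        = ⋂ i ∈ {i | i ≤ K}, ⋂ y ∈ Q i, {q : Par E |
          ⟪y - pt q.1.1 q.1.2 q.2.1 q.2.2.1 q.2.2.2.1 i, q.2.1 i⟫ ≤ 0} := by
      ext q; simp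
    rw [this]
    exact isClosed_biInter fun i _ => isClosed_biInter fun y _ =>
      isClosed_le ((continuous_const.sub (pt_continuous i)).inner (hm i)) continuous_const
  have h3 : IsClosed {q : Par E | ∀ i ≤ K, ⟪dir q.1.2 q.2.1 i, q.2.1 i⟫ ≤ 0} := by
    have : {q : Par E | ∀ i ≤ K, ⟪dir q.1.2 q.2.1 i, q.2.1 i⟫ ≤ 0}
        = ⋂ i ∈ {i | i ≤ K}, {q : Par E | ⟪dir q.1.2 q.2.1 i, q.2.1 i⟫ ≤ 0} := by
      ext q; simp
    rw [this]
    exact isClosed_biInter fun i _ =>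
      isClosed_le ((dir_continuous i).inner (hm i)) continuous_const
  have h4 : IsClosed {q : Par E | dir q.1.2 q.2.1 (K + 1) = q.1.2} :=
    isClosed_eq (dir_continuous (K + 1)) (by fun_prop)
  have h5 : IsClosed {q : Par E | pt q.1.1 q.1.2 q.2.1 q.2.2.1 q.2.2.2.1 K
      = q.1.1 + q.2.2.2.2 • q.1.2} :=
    isClosed_eq (pt_continuous K) (by fun_prop)
  exact h1.inter (h2.inter (h3.inter (h4.inter h5)))

/-- The lines of bounded closed paths. -/
def Nset (Q : ℕ → Set E) (K M : ℕ) : Set (E × E) := Prod.fst '' (Box E M ∩ Cond Q K)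

theorem nset_compact {Q : ℕ → Set E} (hQ : ∀ i, IsCompact (Q i)) (K M : ℕ) :
    IsCompact (Nset Q K M) :=
  ((box_compact M).inter_right (cond_closed (fun i => (hQ i).isClosed) K)).image continuous_fst

theorem nset_traj {Q : ℕ → Set E} {K M : ℕ} {p : E × E} (hp : p ∈ Nset Q K M) :
    p.1 ∈ X Q K p.2 := by
  obtain ⟨q, ⟨hb, h1, h2, h3, h4, h5⟩, rfl⟩ := hp
  obtain ⟨_, hm, ht, _⟩ := hb
  refine ⟨q.2.1, q.2.2.1, q.2.2.2.1, q.2.2.2.2, ?_, h1, h2, h3, h4, ?_, h5⟩
  · intro i _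
    have := hm i (mem_univ i)
    simpa using this
  · intro i _
    have := (ht i (mem_univ i)).1
    have h0 : (0 : ℝ) < 1 / ((M : ℝ) + 1) := by positivity
    exact lt_of_lt_of_le h0 this

theorem traj_nset {Q : ℕ → Set E} {K : ℕ} {x v : E} (hx : x ∈ X Q K v) :
    ∃ M : ℕ, (x, v) ∈ Nset Q K M := by
  obtain ⟨m, t, τ, τ', h⟩ := hx
  have hfin : BddAbove ((fun l => max (t l) (1 / t l)) '' {l | l < K}) :=
    ((finite_lt_nat K).image _).bddAbove
  obtain ⟨C, hC⟩ := hfin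
  obtain ⟨M, hM⟩ := exists_nat_ge (max (max ‖x‖ ‖v‖) (max (max |τ| |τ'|) (max C 1)))
  have hx1 : ‖x‖ ≤ M := le_trans (le_trans (le_max_left _ _) (le_max_left _ _)) hM
  have hv1 : ‖v‖ ≤ M := le_trans (le_trans (le_max_right _ _) (le_max_left _ _)) hM
  have hτ1 : |τ| ≤ M :=
    le_trans (le_trans (le_trans (le_max_left _ _) (le_max_left _ _)) (le_max_right _ _)) hM
  have hτ2 : |τ'| ≤ M :=
    le_trans (le_trans (le_trans (le_max_right _ _) (le_max_left _ _)) (le_max_right _ _)) hM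
  have hC1 : C ≤ M :=
    le_trans (le_trans (le_trans (le_max_left _ _) (le_max_right _ _)) (le_max_right _ _)) hM
  have h11 : (1 : ℝ) ≤ M :=
    le_trans (le_trans (le_trans (le_max_right _ _) (le_max_right _ _)) (le_max_right _ _)) hM
  refine ⟨M, ((x, v), (fun i => if i ≤ K then m i else m 0), (fun i => if i < K then t i else 1),
    τ, τ'), ⟨⟨⟨?_, ?_⟩, ?_, ?_, ?_, ?_⟩, ?_⟩, rfl⟩
  · simpa using hx1
  · simpa using hv1
  · intro i _
    simp only
    split_ifs with hi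
    · simpa using h.hm i hi
    · simpa using h.hm 0 (Nat.zero_le _)
  · intro i _
    simp only
    split_ifs with hi
    · have hpos := h.ht i hi
      have hb := hC ⟨i, hi, rfl⟩
      have hb1 : t i ≤ C := le_trans (le_max_left _ _) hb
      have hb2 : 1 / t i ≤ C := le_trans (le_max_right _ _) hb
      refine ⟨?_, by linarith⟩
      rw [div_le_iff₀ (by positivity)]
      rw [div_le_iff₀ hpos] at hb2
      nlinarith
    · refine ⟨?_, by linarith⟩
      rw [div_le_iff₀ (by positivity)]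
      linarith
  · exact abs_le.mp hτ1
  · exact abs_le.mp hτ2
  · have hd : ∀ i ≤ K + 1, dir v (fun i => if i ≤ K then m i else m 0) i = dir v m i := by
      intro i hi
      refine dir_congr _ _ _ i fun l hl => ?_
      rw [if_pos (by omega)]
    have hp : ∀ i ≤ K, pt x v (fun i => if i ≤ K then m i else m 0)
        (fun i => if i < K then t i else 1) τ i = pt x v m t τ i := by
      intro i hi
      refine pt_congr _ _ _ _ _ _ _ i (fun l hl => ?_) fun l hl => ?_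
      · show _ = _
        rw [if_pos (by omega)]
      · show _ = _
        rw [if_pos (by omega)]
    refine ⟨?_, ?_, ?_, ?_, ?_⟩
    · intro i hi
      simp only
      rw [hp i hi]
      exact h.ha i hi
    · intro i hi y hy
      simp only
      rw [hp i hi, if_pos hi]
      exact h.hs i hi y hy
    · intro i hi
      simp only
      rw [hd i (by omega), if_pos hi]
      exact h.hn i hi
    · simp only
      rw [hd (K + 1) le_rfl]
      exact h.hk
    · simp only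
      rw [hp K le_rfl]
      exact h.hy

theorem nset_null (hfin : 2 ≤ Module.finrank ℝ E) {Q : ℕ → Set E} (hQ : ∀ i, IsCompact (Q i))
    (K M : ℕ) : (volume : Measure (E × E)) (Nset Q K M ∩ {p | p.2 ≠ 0}) = 0 := by
  have hmeas : MeasurableSet (Nset Q K M ∩ {p : E × E | p.2 ≠ 0}) := by
    refine (nset_compact hQ K M).measurableSet.inter ?_
    have : IsClosed {p : E × E | p.2 = 0} := isClosed_eq continuous_snd continuous_const
    exact this.measurableSet.compl
  rw [Measure.volume_eq_prod, Measure.prod_apply_symm hmeas]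
  have hae : ∀ᵐ v : E, (volume : Measure E)
      ((fun x => (x, v)) ⁻¹' (Nset Q K M ∩ {p : E × E | p.2 ≠ 0})) = 0 := by
    have h0 := ae_direction hfin hQ K
    rw [ae_iff]
    refine measure_mono_null ?_ h0
    intro v hv
    have hv' : ¬ (volume : Measure E)
      ((fun x => (x, v)) ⁻¹' (Nset Q K M ∩ {p : E × E | p.2 ≠ 0})) = 0 := hv
    refine ⟨?_, ?_⟩
    · rintro rfl
      apply hv'
      have : (fun x : E => (x, (0 : E))) ⁻¹' (Nset Q K M ∩ {p : E × E | p.2 ≠ 0}) = ∅ := by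
        ext x
        simp
      rw [this]
      simp
    · intro h
      exact hv' (measure_mono_null (fun x hx => nset_traj hx.1) h)
  rw [lintegral_congr_ae hae]
  simp

/-- The compact cells of a list of indices. -/
def cell (𝒦 : ℕ → Set E) (s : List ℕ) (R : ℕ) (i : ℕ) : Set E :=
  closure (𝒦 (s.getD i 0) ∩ Metric.closedBall 0 R)

theorem cell_compact (𝒦 : ℕ → Set E) (s : List ℕ) (R i : ℕ) : IsCompact (cell 𝒦 s R i) :=
  (isCompact_closedBall (0 : E) (R : ℝ)).of_isClosed_subset isClosed_closure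
    (closure_minimal inter_subset_right Metric.isClosed_closedBall)

/-- A closed path along the mirrors is a closed path along compact cells. -/
theorem exists_cell {𝒦 : ℕ → Set E} {K : ℕ} {j : ℕ → ℕ} {x v : E}
    (hx : x ∈ X (fun i => 𝒦 (j i)) K v) : ∃ (s : List ℕ) (R : ℕ), x ∈ X (cell 𝒦 s R) K v := by
  obtain ⟨m, t, τ, τ', h⟩ := hx
  have hfin : BddAbove ((fun i => ‖pt x v m t τ i‖) '' {i | i ≤ K}) :=
    ((finite_le_nat K).image _).bddAbove
  obtain ⟨C, hC⟩ := hfin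
  obtain ⟨R, hR⟩ := exists_nat_ge C
  refine ⟨(List.range (K + 1)).map j, R, ?_⟩
  set s : List ℕ := (List.range (K + 1)).map j with hs
  have hget : ∀ i ≤ K, s.getD i 0 = j i := by
    intro i hi
    rw [hs, List.getD_eq_getElem?_getD, List.getElem?_map, List.getElem?_range (by omega)]
    rfl
  refine ⟨m, t, τ, τ', h.hm, ?_, ?_, h.hn, h.hk, h.ht, h.hy⟩
  · intro i hi
    refine subset_closure ⟨?_, ?_⟩
    · rw [hget i hi]
      exact h.ha i hi
    · rw [mem_closedBall_zero_iff]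
      exact (hC ⟨i, hi, rfl⟩).trans hR
  · intro i hi y hy
    have hcl : IsClosed {y : E | ⟪y - pt x v m t τ i, m i⟫ ≤ 0} :=
      isClosed_le (by fun_prop) continuous_const
    have : cell 𝒦 s R i ⊆ {y : E | ⟪y - pt x v m t τ i, m i⟫ ≤ 0} := by
      refine closure_minimal ?_ hcl
      rintro z ⟨hz, _⟩
      rw [hget i hi] at hz
      exact h.hs i hi z hz
    exact this hy

/-- **Core theorem, directions.** For all but countably many unit vectors `v` the closed paths with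
initial direction `v` which are reflected in supporting hyperplanes of the mirrors form a null
set. -/
theorem core_directions (𝒦 : ℕ → Set E) :
    ∃ D : Set E, D.Countable ∧ ∀ v : E, ‖v‖ = 1 → v ∉ D → (volume : Measure E)
      {x | ∃ (K : ℕ) (j : ℕ → ℕ), x ∈ X (fun i => 𝒦 (j i)) K v} = 0 := by
  refine ⟨⋃ z : List ℕ × ℕ × ℕ,
    {v | ‖v‖ = 1 ∧ (volume : Measure E) (X (cell 𝒦 z.1 z.2.1) z.2.2 v) ≠ 0},
    countable_iUnion fun z => countable_direction (cell_compact 𝒦 z.1 z.2.1) z.2.2, ?_⟩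
  intro v hv hD
  have hsub : {x | ∃ (K : ℕ) (j : ℕ → ℕ), x ∈ X (fun i => 𝒦 (j i)) K v}
      ⊆ ⋃ z : List ℕ × ℕ × ℕ, X (cell 𝒦 z.1 z.2.1) z.2.2 v := by
    rintro x ⟨K, j, hx⟩
    obtain ⟨s, R, h⟩ := exists_cell hx
    exact mem_iUnion.mpr ⟨(s, R, K), h⟩
  refine measure_mono_null hsub (measure_iUnion_null_iff.mpr fun z => ?_)
  by_contra hne
  exact hD (mem_iUnion.mpr ⟨z, hv, hne⟩)

/-- **Core theorem.** Countably many arbitrary mirrors: the closed paths which are reflected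
in supporting hyperplanes of the mirrors form a null set of lines. -/
theorem core (hfin : 2 ≤ Module.finrank ℝ E) (𝒦 : ℕ → Set E) :
    (volume : Measure (E × E)) {p | p.2 ≠ 0 ∧ ∃ (K : ℕ) (j : ℕ → ℕ),
      p.1 ∈ X (fun i => 𝒦 (j i)) K p.2} = 0 := by
  have hsub : {p : E × E | p.2 ≠ 0 ∧ ∃ (K : ℕ) (j : ℕ → ℕ), p.1 ∈ X (fun i => 𝒦 (j i)) K p.2}
      ⊆ ⋃ z : List ℕ × ℕ × ℕ × ℕ,
        (Nset (cell 𝒦 z.1 z.2.1) z.2.2.1 z.2.2.2 ∩ {p | p.2 ≠ 0}) := by
    rintro ⟨x, v⟩ ⟨hv, K, j, hx⟩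
    obtain ⟨s, R, hX⟩ := exists_cell hx
    obtain ⟨M, hM⟩ := traj_nset hX
    exact mem_iUnion.mpr ⟨(s, R, K, M), hM, hv⟩
  refine measure_mono_null hsub (measure_iUnion_null_iff.mpr fun z => ?_)
  exact nset_null hfin (cell_compact 𝒦 z.1 z.2.1) _ _

end Pool.Agent.Lib_helper94.Inv
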