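import Pool.Agent.Lib_helper94.Inv.Traj

/-!
# For almost every direction the closed paths with given compact cells form a null set
-/

set_option autoImplicit false

set_option linter.unusedSectionVars false

namespace Pool.Agent.Lib_helper94.Inv

open Set MeasureTheory
open scoped RealInnerProductSpace

variable {E : Type*} [NormedAddCommGroup E] [InnerProductSpace ℝ E] [FiniteDimensional ℝ E]
  [MeasurableSpace E] [BorelSpace E]

theorem sig_eq (h : ℝ) (m : E) (hm : ‖m‖ = 1) (y : E) :
    sig h m y = (Submodule.span ℝ {m})ᗮ.reflection y + (2 * h) • m := by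
  rw [Submodule.reflection_orthogonal_apply, Submodule.reflection_singleton_apply, hm]
  simp only [sig, RCLike.ofReal_real_eq_id, id, one_pow, div_one]
  rw [real_inner_comm y m]
  module

theorem sig_preserving (h : ℝ) (m : E) (hm : ‖m‖ = 1) :
    MeasurePreserving (sig h m) (volume : Measure E) volume := by
  have : sig h m = (fun z => z + (2 * h) • m) ∘ (Submodule.span ℝ {m})ᗮ.reflection := by
    funext y
    exact sig_eq h m hm y
  rw [this]
  exact (measurePreserving_add_right volume _).comp (LinearIsometryEquiv.measurePreserving _)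

theorem S_preserving (h : ℕ → ℝ) (m : ℕ → E) (i : ℕ) (hm : ∀ l < i, ‖m l‖ = 1) :
    MeasurePreserving (S h m i) (volume : Measure E) volume := by
  induction i with
  | zero => exact MeasurePreserving.id _
  | succ i ih =>
    exact (sig_preserving (h i) (m i) (hm i (by omega))).comp (ih fun l hl => hm l (by omega))

/-- The face of `Q` in the direction `m`. -/
def Face (Q : Set E) (m : E) : Set E := {y | y ∈ Q ∧ ∀ z ∈ Q, ⟪z - y, m⟫ ≤ 0}

/-- A tube on the face. -/
def Tube (Q : Set E) (m e : E) : Set E := (fun p : E × ℝ => p.1 + p.2 • e) '' (Face Q m ×ˢ Icc 1 2)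

theorem face_compact {Q : Set E} (hQ : IsCompact Q) (m : E) : IsCompact (Face Q m) := by
  have : Face Q m = Q ∩ ⋂ z ∈ Q, {y | ⟪z - y, m⟫ ≤ 0} := by
    ext y
    simp [Face]
  rw [this]
  refine hQ.inter_right (isClosed_biInter fun z _ => ?_)
  exact isClosed_le (by fun_prop) continuous_const

theorem tube_compact {Q : Set E} (hQ : IsCompact Q) (m e : E) : IsCompact (Tube Q m e) :=
  ((face_compact hQ m).prod isCompact_Icc).image (by fun_prop)

theorem tube_disjoint {Q : Set E} {m m' : E} (hm : ‖m‖ = 1) (hm' : ‖m'‖ = 1) (hne : m ≠ m') :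
    Disjoint (Tube Q m m) (Tube Q m' m') := by
  rw [Set.disjoint_left]
  rintro z ⟨⟨y, s⟩, ⟨hy, hs⟩, rfl⟩ ⟨⟨y', s'⟩, ⟨hy', hs'⟩, h⟩
  simp only at h hy hy' hs hs'
  apply hne
  have e1 : y' - y = s • m - s' • m' := by
    have : y' + s' • m' = y + s • m := h
    linear_combination (norm := module) this
  have a := hy.2 y' hy'.1
  have b := hy'.2 y hy.1
  rw [e1, inner_sub_left, inner_smul_left, inner_smul_left, real_inner_self_eq_norm_sq, hm] at a
  have e2 : y - y' = s' • m' - s • m := by rw [← neg_sub, e1, neg_sub]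
  rw [e2, inner_sub_left, inner_smul_left, inner_smul_left, real_inner_self_eq_norm_sq, hm'] at b
  simp only [conj_trivial] at a b
  rw [real_inner_comm m m'] at a
  have c := real_inner_le_norm m m'
  rw [hm, hm', one_mul] at c
  have hs1 : (1 : ℝ) ≤ s := hs.1
  have hs1' : (1 : ℝ) ≤ s' := hs'.1
  have hc : ⟪m, m'⟫ = 1 := by
    nlinarith
  have : ‖m - m'‖ ^ 2 = 0 := by
    rw [norm_sub_sq_real, hm, hm', hc]
    norm_num
  exact sub_eq_zero.mp (norm_eq_zero.mp (pow_eq_zero_iff (two_ne_zero)|>.mp this))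

/-- The normals of the big faces. -/
def Big (Q : Set E) : Set E := {m | ‖m‖ = 1 ∧ 0 < (volume : Measure E) (Tube Q m m)}

theorem big_countable {Q : Set E} (hQ : IsCompact Q) : (Big Q).Countable := by
  have h := Measure.countable_meas_pos_of_disjoint_iUnion (μ := (volume : Measure E))
    (As := fun m : {m : E // ‖m‖ = 1} => Tube Q m.1 m.1)
    (fun m => (tube_compact hQ m.1 m.1).measurableSet)
    (fun m m' hne => tube_disjoint m.2 m'.2 fun h => hne (Subtype.ext h))
  refine (h.image Subtype.val).mono ?_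
  rintro m ⟨hm, hpos⟩
  exact ⟨⟨m, hm⟩, hpos, rfl⟩

theorem tube_null {Q : Set E} {m : E} (hm : ‖m‖ = 1) (e : E)
    (h0 : (volume : Measure E) (Tube Q m m) = 0) :
    (volume : Measure E) {z | ∃ y ∈ Face Q m, ∃ s : ℝ, z = y + s • e} = 0 := by
  -- the tube in the direction `e`
  have h1 : (volume : Measure E) (Tube Q m e) = 0 := by
    rcases (Face Q m).eq_empty_or_nonempty with hF | ⟨y0, hy0⟩
    · simp [Tube, hF]
    set L : E →ₗ[ℝ] E := LinearMap.id + (innerₗ E m).smulRight (e - m) with hL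
    have h2 : (volume : Measure E) (L '' Tube Q m m) = 0 := by
      rw [Measure.addHaar_image_linearMap, h0, mul_zero]
    set c : E := ⟪y0, m⟫ • (e - m) with hc
    have h3 : (volume : Measure E) ((fun z => z + -c) '' (L '' Tube Q m m)) = 0 := by
      rw [image_add_right, measure_preimage_add_right, h2]
    refine measure_mono_null ?_ h3
    rintro z ⟨⟨y, s⟩, ⟨hy, hs⟩, rfl⟩
    refine ⟨L (y + s • m), ⟨_, ⟨(y, s), ⟨hy, hs⟩, rfl⟩, rfl⟩, ?_⟩
    have hyy : ⟪y, m⟫ = ⟪y0, m⟫ := by
      have a := hy.2 y0 hy0.1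
      have b := hy0.2 y hy.1
      rw [inner_sub_left] at a b
      linarith
    simp only [hL, hc, LinearMap.add_apply, LinearMap.id_apply, LinearMap.smulRight_apply,
      innerₗ_apply_apply, inner_add_right, inner_smul_right, real_inner_self_eq_norm_sq, hm]
    rw [real_inner_comm y m, hyy]
    module
  have h4 : {z | ∃ y ∈ Face Q m, ∃ s : ℝ, z = y + s • e}
      ⊆ ⋃ r : ℤ, (fun z => z + (r : ℝ) • e) '' Tube Q m e := by
    rintro z ⟨y, hy, s, rfl⟩
    rw [mem_iUnion]
    refine ⟨⌊s⌋ - 1, y + (s - (⌊s⌋ - 1)) • e, ⟨(y, s - (⌊s⌋ - 1)), ⟨hy, ?_, ?_⟩, rfl⟩, ?_⟩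
    · show (1 : ℝ) ≤ s - (⌊s⌋ - 1)
      have := Int.floor_le s
      linarith
    · show s - (⌊s⌋ - 1) ≤ (2 : ℝ)
      have := (Int.lt_floor_add_one s).le
      linarith
    · push_cast
      module
  refine measure_mono_null h4 ((measure_iUnion_null_iff).mpr fun r => ?_)
  rw [image_add_right, measure_preimage_add_right, h1]

theorem affine_null (h : ℕ → ℝ) (m : ℕ → E) (i : ℕ) (c : E)
    (hne : S h m i 0 ≠ c) : (volume : Measure E) {x | S h m i x = x + c} = 0 := by
  obtain ⟨A, hA⟩ := S_affine h m i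
  rcases ({x | S h m i x = x + c} : Set E).eq_empty_or_nonempty with h0 | ⟨x0, hx0⟩
  · rw [h0]; simp
  have hx0' : S h m i x0 = x0 + c := hx0
  set B : Submodule ℝ E := LinearMap.ker (A - LinearMap.id) with hB
  have hBne : B ≠ ⊤ := by
    intro hT
    have : A x0 = x0 := by
      have : x0 ∈ B := by rw [hT]; trivial
      rw [hB, LinearMap.mem_ker, LinearMap.sub_apply, LinearMap.id_apply] at this
      exact sub_eq_zero.mp this
    rw [hA x0, this] at hx0'
    exact hne (add_left_cancel hx0')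
  have hsub : {x | S h m i x = x + c} ⊆ (fun z => z + -x0) ⁻¹' (B : Set E) := by
    intro x hx
    have hx' : S h m i x = x + c := hx
    show x + -x0 ∈ B
    rw [hB, LinearMap.mem_ker, LinearMap.sub_apply, LinearMap.id_apply, map_add, map_neg]
    rw [hA x] at hx'
    rw [hA x0] at hx0'
    have : A x - A x0 = x - x0 := by
      linear_combination (norm := module) hx' - hx0'
    linear_combination (norm := module) this
  refine measure_mono_null hsub ?_
  rw [measure_preimage_add_right]
  exact Measure.addHaar_submodule volume B hBne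

/-- The lines with direction `v` which close up along the cells `Q`. -/
def X (Q : ℕ → Set E) (K : ℕ) (v : E) : Set E :=
  {x | ∃ (m : ℕ → E) (t : ℕ → ℝ) (τ τ' : ℝ), Traj Q K x v m t τ τ'}

theorem grazing_null {Q : ℕ → Set E} {K : ℕ} {v : E} (hv : v ≠ 0) {x₁ : E} {m₁ : ℕ → E}
    {t₁ : ℕ → ℝ} {τ₁ τ₁' : ℝ} (h₁ : Traj Q K x₁ v m₁ t₁ τ₁ τ₁')
    (hg : ∃ i ≤ K, ⟪dir v m₁ i, m₁ i⟫ = 0) : (volume : Measure E) (X Q K v) = 0 := by
  classical
  obtain ⟨hj, hj0⟩ := Nat.find_spec hg
  set j := Nat.find hg with hjdef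
  have hmin : ∀ i < j, ⟪dir v m₁ i, m₁ i⟫ ≠ 0 := by
    intro i hi h0
    exact Nat.find_min hg hi ⟨by omega, h0⟩
  set e := dir v m₁ j with he
  set C : Set E := {z | ∃ y ∈ convexHull ℝ (Q j), ∃ s : ℝ, z = y + s • e} with hC
  have hCconv : Convex ℝ C := by
    rintro z ⟨y, hy, s, rfl⟩ z' ⟨y', hy', s', rfl⟩ a b ha hb hab
    refine ⟨a • y + b • y', convex_convexHull ℝ _ hy hy' ha hb hab, a * s + b * s', ?_⟩
    module
  have hfr := hCconv.addHaar_frontier (volume : Measure E)
  have hpre : (volume : Measure E)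
      (S (fun i => ⟪pt x₁ v m₁ t₁ τ₁ i, m₁ i⟫) m₁ j ⁻¹' frontier C) = 0 :=
    (S_preserving _ _ j fun l hl => h₁.hm l (by omega)).quasiMeasurePreserving.preimage_null hfr
  refine measure_mono_null ?_ hpre
  rintro x ⟨m, t, τ, τ', h⟩
  obtain ⟨hd, hp⟩ := same hv h₁ h
  have htr := S_track' (x := x) (v := v) (m := m₁) (m' := m) (t := t) (τ := τ)
    (h := fun i => ⟪pt x₁ v m₁ t₁ τ₁ i, m₁ i⟫) j (fun i hi => hd i (by omega))
    (fun i hi => by
      rcases hp i (by omega) with h0 | h0
      · exact absurd h0 (hmin i hi)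
      · rw [inner_sub_left] at h0
        linarith)
  show S _ m₁ j x ∈ frontier C
  rw [htr]
  -- the reflection number `j` of the second path is grazing as well
  have hg' : ⟪e, m j⟫ = 0 := by
    have e1 : dir v m (j + 1) = dir v m j - (2 * ⟪dir v m j, m j⟫) • m j := rfl
    have e2 : dir v m₁ (j + 1) = dir v m₁ j - (2 * ⟪dir v m₁ j, m₁ j⟫) • m₁ j := rfl
    rw [hd (j + 1) (by omega), hd j (by omega), e2, hj0] at e1
    have e3 : (2 * ⟪dir v m₁ j, m j⟫) • m j = 0 := by
      have := congrArg (fun z => dir v m₁ j - z) e1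
      simpa using this.symm
    rcases smul_eq_zero.mp e3 with h3 | h3
    · rw [he]; linarith
    · have := h.hm j hj
      rw [h3, norm_zero] at this
      norm_num at this
  set p := pt x v m t τ j with hpdef
  set r := τ + ∑ i ∈ Finset.range j, t i with hr
  have hsup : ∀ z ∈ C, ⟪z - p, m j⟫ ≤ 0 := by
    rintro z ⟨y, hy, s, rfl⟩
    have hcv : Convex ℝ {y : E | (innerₗ E (m j)) y ≤ ⟪p, m j⟫} :=
      convex_halfSpace_le (innerₗ E (m j)).isLinear _
    have hy' : y ∈ {y : E | (innerₗ E (m j)) y ≤ ⟪p, m j⟫} := by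
      refine convexHull_min (fun w hw => ?_) hcv hy
      have := h.hs j hj w hw
      rw [inner_sub_left] at this
      show ⟪m j, w⟫ ≤ ⟪p, m j⟫
      rw [real_inner_comm]
      linarith
    have hy'' : ⟪y - p, m j⟫ ≤ 0 := by
      have h2 : ⟪m j, y⟫ ≤ ⟪p, m j⟫ := hy'
      rw [real_inner_comm] at h2
      rw [inner_sub_left]
      linarith
    rw [show y + s • e - p = (y - p) + s • e by abel, inner_add_left, inner_smul_left, hg']
    simpa using hy''
  have hmem : p - r • e ∈ C :=
    ⟨p, subset_convexHull ℝ _ (h.ha j hj), -r, by module⟩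
  refine ⟨subset_closure hmem, ?_⟩
  intro hint
  rw [mem_interior_iff_mem_nhds] at hint
  have hcont : Filter.Tendsto (fun s : ℝ => p - r • e + s • m j) (nhds 0) (nhds (p - r • e)) := by
    have : Continuous (fun s : ℝ => p - r • e + s • m j) := by fun_prop
    have h0 := this.tendsto 0
    simpa using h0
  have hev := hcont.eventually hint
  rw [Metric.eventually_nhds_iff] at hev
  obtain ⟨δ, hδ, hev⟩ := hev
  have hz := hev (y := δ / 2) (by rw [Real.dist_eq, sub_zero, abs_of_pos (by linarith)]; linarith)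
  have := hsup _ hz
  rw [show p - r • e + (δ / 2) • m j - p = (δ / 2) • m j - r • e by abel, inner_sub_left,
    inner_smul_left, inner_smul_left, hg', real_inner_self_eq_norm_sq, h.hm j hj] at this
  simp only [conj_trivial] at this
  linarith

/-- The height of the supporting hyperplane. -/
noncomputable def height (Q : Set E) (m : E) : ℝ := sSup ((fun y => ⟪y, m⟫) '' Q)

theorem height_eq {Q : Set E} {m y : E} (hy : y ∈ Q) (h : ∀ z ∈ Q, ⟪z - y, m⟫ ≤ 0) :
    height Q m = ⟪y, m⟫ := by
  refine IsGreatest.csSup_eq ⟨⟨y, hy, rfl⟩, ?_⟩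
  rintro _ ⟨z, hz, rfl⟩
  have := h z hz
  rw [inner_sub_left] at this
  show ⟪z, m⟫ ≤ ⟪y, m⟫
  linarith

/-- If the closed paths of direction `v` have positive measure, then `v` lies on one of countably
many lines. -/
theorem direction {Q : ℕ → Set E} {K : ℕ} {v : E} (hv : v ≠ 0)
    (hpos : (volume : Measure E) (X Q K v) ≠ 0) :
    ∃ m : ℕ → E, (∀ i ≤ K, m i ∈ Big (Q i)) ∧
      v ∈ Submodule.span ℝ {S (fun i => height (Q i) (m i)) m (K + 1) 0} := by
  have hne : (X Q K v).Nonempty := by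
    by_contra h
    rw [not_nonempty_iff_eq_empty] at h
    exact hpos (by rw [h]; simp)
  obtain ⟨x₁, m₁, t₁, τ₁, τ₁', h₁⟩ := hne
  have hng : ∀ i ≤ K, ⟪dir v m₁ i, m₁ i⟫ ≠ 0 := by
    intro i hi h0
    exact hpos (grazing_null hv h₁ ⟨i, hi, h0⟩)
  set h : ℕ → ℝ := fun i => ⟪pt x₁ v m₁ t₁ τ₁ i, m₁ i⟫ with hh
  have hheight : ∀ l < K + 1, height (Q l) (m₁ l) = h l := fun l hl =>
    height_eq (h₁.ha l (by omega)) (h₁.hs l (by omega))
  have hpl : ∀ {x : E} {m : ℕ → E} {t : ℕ → ℝ} {τ τ' : ℝ}, Traj Q K x v m t τ τ' →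
      ∀ i ≤ K, ⟪pt x v m t τ i, m₁ i⟫ = h i := by
    intro x m t τ τ' hx i hi
    rcases (same hv h₁ hx).2 i hi with h0 | h0
    · exact absurd h0 (hng i hi)
    · rw [inner_sub_left] at h0
      simp only [hh]
      linarith
  refine ⟨m₁, ?_, ?_⟩
  · intro i hi
    refine ⟨h₁.hm i hi, pos_iff_ne_zero.mpr fun h0 => hpos ?_⟩
    have hnull := tube_null (h₁.hm i hi) (dir v m₁ i) h0
    have hpre : (volume : Measure E)
        (S h m₁ i ⁻¹' {z | ∃ y ∈ Face (Q i) (m₁ i), ∃ s : ℝ, z = y + s • dir v m₁ i}) = 0 :=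
      (S_preserving _ _ i fun l hl => h₁.hm l (by omega)).quasiMeasurePreserving.preimage_null hnull
    refine measure_mono_null ?_ hpre
    rintro x ⟨m, t, τ, τ', hx⟩
    have htr := S_track' (x := x) (v := v) (m := m₁) (m' := m) (t := t) (τ := τ)
      (h := h) i (fun l hl => (same hv h₁ hx).1 l (by omega))
      (fun l hl => hpl hx l (by omega))
    refine ⟨pt x v m t τ i, ⟨hx.ha i hi, fun z hz => ?_⟩, -(τ + ∑ l ∈ Finset.range i, t l), ?_⟩
    · have a := h₁.hs i hi z hz
      have b := hpl hx i hi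
      rw [inner_sub_left] at a ⊢
      simp only [hh] at b
      linarith
    · rw [htr]
      module
  · rw [S_congr (fun i => height (Q i) (m₁ i)) h m₁ m₁ (K + 1) hheight fun l _ => rfl]
    have hS : ∀ x ∈ X Q K v, S h m₁ (K + 1) x = x + -(delay K t₁ τ₁ τ₁') • v := by
      rintro x ⟨m, t, τ, τ', hx⟩
      rw [S_track (x := x) (v := v) (m := m₁) (m' := m) (t := t) (τ := τ) (h := h) K
        (fun i hi => (same hv h₁ hx).1 i hi) (hpl hx), hx.hy, h₁.hk, ← delay_eq hv h₁ hx, delay]
      module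
    have h0 : S h m₁ (K + 1) 0 = -(delay K t₁ τ₁ τ₁') • v := by
      by_contra hne
      exact hpos (measure_mono_null hS (affine_null h m₁ (K + 1) _ hne))
    have hw := delay_pos hv h₁ (lt_of_le_of_ne (h₁.hn 0 (Nat.zero_le _)) (hng 0 (Nat.zero_le _)))
    rw [h0, Submodule.mem_span_singleton]
    refine ⟨-(delay K t₁ τ₁ τ₁')⁻¹, ?_⟩
    rw [smul_smul, neg_mul_neg, inv_mul_cancel₀ hw.ne', one_smul]

/-- For all but countably many unit vectors the closed paths along given compact cells are a null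
set. -/
theorem countable_direction {Q : ℕ → Set E} (hQ : ∀ i, IsCompact (Q i)) (K : ℕ) :
    {v : E | ‖v‖ = 1 ∧ (volume : Measure E) (X Q K v) ≠ 0}.Countable := by
  classical
  have hC : (Set.pi univ fun i : Fin (K + 1) => Big (Q i)).Countable :=
    countable_univ_pi fun i => big_countable (hQ i)
  set ex : (Fin (K + 1) → E) → ℕ → E := fun f i => if h : i < K + 1 then f ⟨i, h⟩ else 0 with hex
  set p : (Fin (K + 1) → E) → E := fun f =>
    S (fun i => height (Q i) (ex f i)) (ex f) (K + 1) 0 with hp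
  have hsub : {v : E | ‖v‖ = 1 ∧ (volume : Measure E) (X Q K v) ≠ 0}
      ⊆ ⋃ f ∈ (Set.pi univ fun i : Fin (K + 1) => Big (Q i)),
        ({‖p f‖⁻¹ • p f, -(‖p f‖⁻¹ • p f)} : Set E) := by
    rintro v ⟨hv, hpos⟩
    obtain ⟨m, hm, hmem⟩ := direction (by rintro rfl; simp at hv) hpos
    rw [mem_iUnion₂]
    refine ⟨fun i => m i, fun i _ => hm i (by omega), ?_⟩
    have hex' : ∀ l < K + 1, ex (fun i : Fin (K + 1) => m i) l = m l := fun l hl => by
      simp only [hex, dif_pos hl]
    have hpe : p (fun i : Fin (K + 1) => m i) = S (fun i => height (Q i) (m i)) m (K + 1) 0 := by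
      rw [hp]
      exact congrFun (S_congr (fun i => height (Q i) (ex (fun i : Fin (K + 1) => m i) i))
        (fun i => height (Q i) (m i)) (ex fun i : Fin (K + 1) => m i) m (K + 1)
        (fun l hl => by rw [hex' l hl]) hex') 0
    rw [← hpe, Submodule.mem_span_singleton] at hmem
    obtain ⟨c, hc⟩ := hmem
    set w := p (fun i : Fin (K + 1) => m i) with hw
    have hn : |c| * ‖w‖ = 1 := by
      rw [← Real.norm_eq_abs, ← norm_smul, hc, hv]
    have hw0 : ‖w‖ ≠ 0 := by
      intro h0
      rw [h0, mul_zero] at hn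
      norm_num at hn
    have hc' : |c| = ‖w‖⁻¹ := by
      field_simp
      exact hn
    rcases abs_choice c with h | h
    · left
      rw [← hc, ← h, hc']
    · right
      rw [← hc]
      have : c = -‖w‖⁻¹ := by rw [← hc', h, neg_neg]
      show c • w = -(‖w‖⁻¹ • w)
      rw [this, neg_smul]
  refine Countable.mono hsub (hC.biUnion fun f _ => ?_)
  exact (Set.toFinite _).countable

/-- For almost every direction the closed paths along given compact cells are a null set. -/
theorem ae_direction (hfin : 2 ≤ Module.finrank ℝ E) {Q : ℕ → Set E} (hQ : ∀ i, IsCompact (Q i))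
    (K : ℕ) : (volume : Measure E) {v | v ≠ 0 ∧ (volume : Measure E) (X Q K v) ≠ 0} = 0 := by
  classical
  have hC : (Set.pi univ fun i : Fin (K + 1) => Big (Q i)).Countable :=
    countable_univ_pi fun i => big_countable (hQ i)
  set ex : (Fin (K + 1) → E) → ℕ → E := fun f i => if h : i < K + 1 then f ⟨i, h⟩ else 0 with hex
  have hsub : {v | v ≠ 0 ∧ (volume : Measure E) (X Q K v) ≠ 0}
      ⊆ ⋃ f ∈ (Set.pi univ fun i : Fin (K + 1) => Big (Q i)),
        ((Submodule.span ℝ {S (fun i => height (Q i) (ex f i)) (ex f) (K + 1) 0} : Submodule ℝ E)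
          : Set E) := by
    rintro v ⟨hv, hpos⟩
    obtain ⟨m, hm, hmem⟩ := direction hv hpos
    rw [mem_iUnion₂]
    refine ⟨fun i => m i, fun i _ => hm i (by omega), ?_⟩
    have hex' : ∀ l < K + 1, ex (fun i : Fin (K + 1) => m i) l = m l := fun l hl => by
      simp only [hex, dif_pos hl]
    rw [S_congr (fun i => height (Q i) (ex (fun i : Fin (K + 1) => m i) i))
      (fun i => height (Q i) (m i)) (ex fun i : Fin (K + 1) => m i) m (K + 1)
      (fun l hl => by rw [hex' l hl]) hex']
    exact hmem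
  refine measure_mono_null hsub ((measure_biUnion_null_iff hC).mpr fun f _ => ?_)
  refine Measure.addHaar_submodule volume _ fun hT => ?_
  have h1 := finrank_span_le_card (R := ℝ)
    ({S (fun i => height (Q i) (ex f i)) (ex f) (K + 1) 0} : Set E)
  rw [hT, finrank_top] at h1
  simp at h1
  omega

end Pool.Agent.Lib_helper94.Inv
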