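import Mathlib

/-!
# Broken paths along supporting hyperplanes

Reflections of oriented lines in supporting hyperplanes of the sets `Q 0, ..., Q K` (the cells).
-/

set_option autoImplicit false

namespace Pool.Agent.Lib_helper94.Inv

open Set
open scoped RealInnerProductSpace

variable {E : Type*} [NormedAddCommGroup E] [InnerProductSpace ℝ E]

/-- The directions of the path: `v`, reflected in the hyperplanes orthogonal to `m 0, m 1, ...`. -/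
def dir (v : E) (m : ℕ → E) : ℕ → E
  | 0 => v
  | i + 1 => dir v m i - (2 * ⟪dir v m i, m i⟫) • m i

/-- The vertices of the path. -/
def pt (x v : E) (m : ℕ → E) (t : ℕ → ℝ) (τ : ℝ) : ℕ → E
  | 0 => x + τ • v
  | i + 1 => pt x v m t τ i + t i • dir v m (i + 1)

/-- A closed path: the line `x + ℝ v` is reflected at `pt i ∈ Q i`, `i ≤ K`, in a supporting
hyperplane of `Q i`, and comes back to itself. -/
structure Traj (Q : ℕ → Set E) (K : ℕ) (x v : E) (m : ℕ → E) (t : ℕ → ℝ) (τ τ' : ℝ) : Prop where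
  hm : ∀ i ≤ K, ‖m i‖ = 1
  ha : ∀ i ≤ K, pt x v m t τ i ∈ Q i
  hs : ∀ i ≤ K, ∀ y ∈ Q i, ⟪y - pt x v m t τ i, m i⟫ ≤ 0
  hn : ∀ i ≤ K, ⟪dir v m i, m i⟫ ≤ 0
  hk : dir v m (K + 1) = v
  ht : ∀ i < K, 0 < t i
  hy : pt x v m t τ K = x + τ' • v

/-- The delay. -/
def delay (K : ℕ) (t : ℕ → ℝ) (τ τ' : ℝ) : ℝ := ∑ i ∈ Finset.range K, t i + τ - τ'

theorem norm_reflect (e m : E) (hm : ‖m‖ = 1) : ‖e - (2 * ⟪e, m⟫) • m‖ = ‖e‖ := by
  have h : ‖e - (2 * ⟪e, m⟫) • m‖ ^ 2 = ‖e‖ ^ 2 := by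
    rw [norm_sub_sq_real, norm_smul, inner_smul_right, hm, mul_one, Real.norm_eq_abs, sq_abs]
    ring
  exact (sq_eq_sq₀ (norm_nonneg _) (norm_nonneg _)).mp h

theorem norm_dir (v : E) (m : ℕ → E) (K : ℕ) (hm : ∀ i ≤ K, ‖m i‖ = 1) :
    ∀ i ≤ K + 1, ‖dir v m i‖ = ‖v‖ := by
  intro i
  induction i with
  | zero => intro _; rfl
  | succ i ih =>
    intro hi
    show ‖dir v m i - (2 * ⟪dir v m i, m i⟫) • m i‖ = ‖v‖
    rw [norm_reflect _ _ (hm i (by omega))]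
    exact ih (by omega)

theorem dir_congr (v : E) (m m' : ℕ → E) (i : ℕ) (h : ∀ l < i, m l = m' l) :
    dir v m i = dir v m' i := by
  induction i with
  | zero => rfl
  | succ i ih =>
    show dir v m i - (2 * ⟪dir v m i, m i⟫) • m i = dir v m' i - (2 * ⟪dir v m' i, m' i⟫) • m' i
    rw [ih fun l hl => h l (by omega), h i (by omega)]

theorem pt_congr (x v : E) (m m' : ℕ → E) (t t' : ℕ → ℝ) (τ : ℝ) (i : ℕ)
    (h : ∀ l < i, m l = m' l) (h' : ∀ l < i, t l = t' l) :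
    pt x v m t τ i = pt x v m' t' τ i := by
  induction i with
  | zero => rfl
  | succ i ih =>
    show pt x v m t τ i + t i • dir v m (i + 1) = pt x v m' t' τ i + t' i • dir v m' (i + 1)
    rw [ih (fun l hl => h l (by omega)) (fun l hl => h' l (by omega)), h' i (by omega),
      dir_congr v m m' (i + 1) h]

/-- Abel summation. -/
theorem abel (d e : ℕ → E) (N : ℕ) :
    ∑ i ∈ Finset.range N, ⟪d (i + 1) - d i, e (i + 1)⟫ + ⟪d 0, e 0⟫ - ⟪d N, e (N + 1)⟫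
      = ∑ i ∈ Finset.range (N + 1), ⟪d i, e i - e (i + 1)⟫ := by
  induction N with
  | zero => simp [inner_sub_right]
  | succ N ih =>
    rw [Finset.sum_range_succ (fun i => ⟪d i, e i - e (i + 1)⟫), ← ih,
      Finset.sum_range_succ, inner_sub_right, inner_sub_left]
    ring

/-- The first variation of the length of the path, exactly. -/
theorem compare {Q : ℕ → Set E} {K : ℕ} {v : E} {x₁ x₂ : E} {m₁ m₂ : ℕ → E} {t₁ t₂ : ℕ → ℝ}
    {τ₁ τ₁' τ₂ τ₂' : ℝ} (h₁ : Traj Q K x₁ v m₁ t₁ τ₁ τ₁') (h₂ : Traj Q K x₂ v m₂ t₂ τ₂ τ₂') :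
    (delay K t₂ τ₂ τ₂' - delay K t₁ τ₁ τ₁') * ‖v‖ ^ 2
      = ∑ i ∈ Finset.range K, t₂ i * (‖v‖ ^ 2 - ⟪dir v m₂ (i + 1), dir v m₁ (i + 1)⟫)
        + ∑ i ∈ Finset.range (K + 1),
          2 * (⟪dir v m₁ i, m₁ i⟫ * ⟪pt x₂ v m₂ t₂ τ₂ i - pt x₁ v m₁ t₁ τ₁ i, m₁ i⟫) := by
  have hA := abel (fun i => pt x₂ v m₂ t₂ τ₂ i - pt x₁ v m₁ t₁ τ₁ i) (dir v m₁) K
  have h1 : ∀ i ∈ Finset.range (K + 1),
      ⟪(fun i => pt x₂ v m₂ t₂ τ₂ i - pt x₁ v m₁ t₁ τ₁ i) i, dir v m₁ i - dir v m₁ (i + 1)⟫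
      = 2 * (⟪dir v m₁ i, m₁ i⟫ * ⟪pt x₂ v m₂ t₂ τ₂ i - pt x₁ v m₁ t₁ τ₁ i, m₁ i⟫) := by
    intro i _
    have : dir v m₁ i - dir v m₁ (i + 1) = (2 * ⟪dir v m₁ i, m₁ i⟫) • m₁ i := by
      show dir v m₁ i - (dir v m₁ i - (2 * ⟪dir v m₁ i, m₁ i⟫) • m₁ i) = _
      abel
    simp only [this, inner_smul_right]
    ring
  rw [Finset.sum_congr rfl h1] at hA
  rw [← hA]
  have h2 : ∀ i ∈ Finset.range K,
      ⟪(fun i => pt x₂ v m₂ t₂ τ₂ i - pt x₁ v m₁ t₁ τ₁ i) (i + 1)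
        - (fun i => pt x₂ v m₂ t₂ τ₂ i - pt x₁ v m₁ t₁ τ₁ i) i, dir v m₁ (i + 1)⟫
      = t₂ i * ⟪dir v m₂ (i + 1), dir v m₁ (i + 1)⟫ - t₁ i * ‖v‖ ^ 2 := by
    intro i hi
    have hi' := Finset.mem_range.mp hi
    have e1 : (fun i => pt x₂ v m₂ t₂ τ₂ i - pt x₁ v m₁ t₁ τ₁ i) (i + 1)
        - (fun i => pt x₂ v m₂ t₂ τ₂ i - pt x₁ v m₁ t₁ τ₁ i) i
        = t₂ i • dir v m₂ (i + 1) - t₁ i • dir v m₁ (i + 1) := by
      show (pt x₂ v m₂ t₂ τ₂ i + t₂ i • dir v m₂ (i + 1)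
        - (pt x₁ v m₁ t₁ τ₁ i + t₁ i • dir v m₁ (i + 1)))
        - (pt x₂ v m₂ t₂ τ₂ i - pt x₁ v m₁ t₁ τ₁ i) = _
      abel
    rw [e1, inner_sub_left, inner_smul_left, inner_smul_left, real_inner_self_eq_norm_sq,
      norm_dir v m₁ K h₁.hm (i + 1) (by omega)]
    simp
  rw [Finset.sum_congr rfl h2]
  have h3 : ⟪(fun i => pt x₂ v m₂ t₂ τ₂ i - pt x₁ v m₁ t₁ τ₁ i) 0, dir v m₁ 0⟫
      - ⟪(fun i => pt x₂ v m₂ t₂ τ₂ i - pt x₁ v m₁ t₁ τ₁ i) K, dir v m₁ (K + 1)⟫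
      = (τ₂ - τ₂' - τ₁ + τ₁') * ‖v‖ ^ 2 := by
    have e0 : dir v m₁ 0 = v := rfl
    rw [h₁.hk, e0, ← inner_sub_left]
    have e1 : (fun i => pt x₂ v m₂ t₂ τ₂ i - pt x₁ v m₁ t₁ τ₁ i) 0
        - (fun i => pt x₂ v m₂ t₂ τ₂ i - pt x₁ v m₁ t₁ τ₁ i) K
        = (τ₂ - τ₂' - τ₁ + τ₁') • v := by
      show (x₂ + τ₂ • v - (x₁ + τ₁ • v)) - (pt x₂ v m₂ t₂ τ₂ K - pt x₁ v m₁ t₁ τ₁ K) = _
      rw [h₁.hy, h₂.hy]
      module
    rw [e1, inner_smul_left, real_inner_self_eq_norm_sq]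
    simp
  have h4 : ∀ A B C : ℝ, A + B - C = A + (B - C) := fun A B C => by ring
  rw [h4, h3, delay, delay, Finset.sum_sub_distrib]
  simp only [mul_sub, Finset.sum_sub_distrib, ← Finset.sum_mul]
  ring

theorem term1_nonneg {Q : ℕ → Set E} {K : ℕ} {v : E} {x₁ x₂ : E} {m₁ m₂ : ℕ → E} {t₁ t₂ : ℕ → ℝ}
    {τ₁ τ₁' τ₂ τ₂' : ℝ} (h₁ : Traj Q K x₁ v m₁ t₁ τ₁ τ₁') (h₂ : Traj Q K x₂ v m₂ t₂ τ₂ τ₂') :
    ∀ i ∈ Finset.range K, 0 ≤ t₂ i * (‖v‖ ^ 2 - ⟪dir v m₂ (i + 1), dir v m₁ (i + 1)⟫) := by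
  intro i hi
  have hi' := Finset.mem_range.mp hi
  refine mul_nonneg (h₂.ht i hi').le ?_
  have := real_inner_le_norm (dir v m₂ (i + 1)) (dir v m₁ (i + 1))
  rw [norm_dir v m₁ K h₁.hm (i + 1) (by omega), norm_dir v m₂ K h₂.hm (i + 1) (by omega)] at this
  nlinarith

theorem term2_nonneg {Q : ℕ → Set E} {K : ℕ} {v : E} {x₁ x₂ : E} {m₁ m₂ : ℕ → E} {t₁ t₂ : ℕ → ℝ}
    {τ₁ τ₁' τ₂ τ₂' : ℝ} (h₁ : Traj Q K x₁ v m₁ t₁ τ₁ τ₁') (h₂ : Traj Q K x₂ v m₂ t₂ τ₂ τ₂') :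
    ∀ i ∈ Finset.range (K + 1),
      0 ≤ 2 * (⟪dir v m₁ i, m₁ i⟫ * ⟪pt x₂ v m₂ t₂ τ₂ i - pt x₁ v m₁ t₁ τ₁ i, m₁ i⟫) := by
  intro i hi
  have hi' : i ≤ K := by have := Finset.mem_range.mp hi; omega
  have a := h₁.hn i hi'
  have b := h₁.hs i hi' _ (h₂.ha i hi')
  have := mul_nonneg_of_nonpos_of_nonpos a b
  linarith

theorem delay_le {Q : ℕ → Set E} {K : ℕ} {v : E} (hv : v ≠ 0) {x₁ x₂ : E} {m₁ m₂ : ℕ → E}
    {t₁ t₂ : ℕ → ℝ} {τ₁ τ₁' τ₂ τ₂' : ℝ} (h₁ : Traj Q K x₁ v m₁ t₁ τ₁ τ₁')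
    (h₂ : Traj Q K x₂ v m₂ t₂ τ₂ τ₂') : delay K t₁ τ₁ τ₁' ≤ delay K t₂ τ₂ τ₂' := by
  have h := compare h₁ h₂
  have a := Finset.sum_nonneg (term1_nonneg h₁ h₂)
  have b := Finset.sum_nonneg (term2_nonneg h₁ h₂)
  have hv2 : 0 < ‖v‖ ^ 2 := by positivity
  by_contra hc
  have : (delay K t₂ τ₂ τ₂' - delay K t₁ τ₁ τ₁') * ‖v‖ ^ 2 < 0 :=
    mul_neg_of_neg_of_pos (by linarith) hv2
  linarith

theorem delay_eq {Q : ℕ → Set E} {K : ℕ} {v : E} (hv : v ≠ 0) {x₁ x₂ : E} {m₁ m₂ : ℕ → E}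
    {t₁ t₂ : ℕ → ℝ} {τ₁ τ₁' τ₂ τ₂' : ℝ} (h₁ : Traj Q K x₁ v m₁ t₁ τ₁ τ₁')
    (h₂ : Traj Q K x₂ v m₂ t₂ τ₂ τ₂') : delay K t₂ τ₂ τ₂' = delay K t₁ τ₁ τ₁' :=
  le_antisymm (delay_le hv h₂ h₁) (delay_le hv h₁ h₂)

/-- Two closed paths with the same cells and the same initial direction have the same
directions and, at the reflections that are not grazing, the same hyperplanes. -/
theorem same {Q : ℕ → Set E} {K : ℕ} {v : E} (hv : v ≠ 0) {x₁ x₂ : E} {m₁ m₂ : ℕ → E}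
    {t₁ t₂ : ℕ → ℝ} {τ₁ τ₁' τ₂ τ₂' : ℝ} (h₁ : Traj Q K x₁ v m₁ t₁ τ₁ τ₁')
    (h₂ : Traj Q K x₂ v m₂ t₂ τ₂ τ₂') :
    (∀ i ≤ K + 1, dir v m₂ i = dir v m₁ i) ∧
    (∀ i ≤ K, ⟪dir v m₁ i, m₁ i⟫ = 0 ∨
      ⟪pt x₂ v m₂ t₂ τ₂ i - pt x₁ v m₁ t₁ τ₁ i, m₁ i⟫ = 0) := by
  have h := compare h₁ h₂
  rw [delay_eq hv h₁ h₂, sub_self, zero_mul] at h
  have a := Finset.sum_nonneg (term1_nonneg h₁ h₂)
  have b := Finset.sum_nonneg (term2_nonneg h₁ h₂)
  have a0 := (Finset.sum_eq_zero_iff_of_nonneg (term1_nonneg h₁ h₂)).mp (by linarith)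
  have b0 := (Finset.sum_eq_zero_iff_of_nonneg (term2_nonneg h₁ h₂)).mp (by linarith)
  refine ⟨?_, ?_⟩
  · intro i hi
    rcases Nat.eq_zero_or_pos i with rfl | hpos
    · rfl
    obtain ⟨j, rfl⟩ : ∃ j, i = j + 1 := ⟨i - 1, by omega⟩
    rcases Nat.lt_or_ge j K with hj | hj
    · have := a0 j (Finset.mem_range.mpr hj)
      rcases mul_eq_zero.mp this with h0 | h0
      · exact absurd h0 (h₂.ht j hj).ne'
      · have n1 := norm_dir v m₁ K h₁.hm (j + 1) (by omega)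
        have n2 := norm_dir v m₂ K h₂.hm (j + 1) (by omega)
        have : ‖dir v m₂ (j + 1) - dir v m₁ (j + 1)‖ ^ 2 = 0 := by
          rw [norm_sub_sq_real, n1, n2]
          linarith
        exact sub_eq_zero.mp (norm_eq_zero.mp (pow_eq_zero_iff (two_ne_zero)|>.mp this))
    · have : j = K := by omega
      subst this
      rw [h₁.hk, h₂.hk]
  · intro i hi
    have := b0 i (Finset.mem_range.mpr (by omega))
    rcases mul_eq_zero.mp this with h0 | h0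
    · norm_num at h0
    · exact mul_eq_zero.mp h0

/-- The delay is positive if the first reflection is not grazing. -/
theorem delay_pos {Q : ℕ → Set E} {K : ℕ} {v : E} (hv : v ≠ 0) {x : E} {m : ℕ → E}
    {t : ℕ → ℝ} {τ τ' : ℝ} (h : Traj Q K x v m t τ τ') (h0 : ⟪v, m 0⟫ < 0) :
    0 < delay K t τ τ' := by
  have hv2 : 0 < ‖v‖ ^ 2 := by positivity
  have key : ∀ N ≤ K, ∑ i ∈ Finset.range N, t i * ⟪dir v m (i + 1), v⟫
      = ⟪pt x v m t τ N - pt x v m t τ 0, v⟫ := by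
    intro N
    induction N with
    | zero => simp
    | succ N ih =>
      intro hN
      rw [Finset.sum_range_succ, ih (by omega)]
      show _ = ⟪pt x v m t τ N + t N • dir v m (N + 1) - pt x v m t τ 0, v⟫
      rw [show pt x v m t τ N + t N • dir v m (N + 1) - pt x v m t τ 0
        = (pt x v m t τ N - pt x v m t τ 0) + t N • dir v m (N + 1) by abel, inner_add_left,
        inner_smul_left]
      simp
  have hK := key K le_rfl
  have e1 : pt x v m t τ K - pt x v m t τ 0 = (τ' - τ) • v := by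
    rw [h.hy]
    show x + τ' • v - (x + τ • v) = _
    module
  rw [e1, inner_smul_left, real_inner_self_eq_norm_sq] at hK
  have hd : delay K t τ τ' * ‖v‖ ^ 2
      = ∑ i ∈ Finset.range K, t i * (‖v‖ ^ 2 - ⟪dir v m (i + 1), v⟫) := by
    simp only [mul_sub, Finset.sum_sub_distrib, ← Finset.sum_mul, hK, delay]
    simp
    ring
  have hnn : ∀ i ∈ Finset.range K, 0 ≤ t i * (‖v‖ ^ 2 - ⟪dir v m (i + 1), v⟫) := by
    intro i hi
    have hi' := Finset.mem_range.mp hi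
    refine mul_nonneg (h.ht i hi').le ?_
    have := real_inner_le_norm (dir v m (i + 1)) v
    rw [norm_dir v m K h.hm (i + 1) (by omega)] at this
    nlinarith
  have hm0 := h.hm 0 (Nat.zero_le _)
  have e2 : dir v m 1 = v - (2 * ⟪v, m 0⟫) • m 0 := rfl
  have hK0 : 0 < K := by
    rcases Nat.eq_zero_or_pos K with hK0 | hK0
    · exfalso
      subst hK0
      have h1 := h.hk
      rw [zero_add, e2] at h1
      have h2 : (2 * ⟪v, m 0⟫) • m 0 = 0 := by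
        have := congrArg (fun z => v - z) h1
        simpa using this
      rcases smul_eq_zero.mp h2 with h3 | h3
      · linarith
      · rw [h3, norm_zero] at hm0
        norm_num at hm0
    · exact hK0
  have hpos : 0 < ∑ i ∈ Finset.range K, t i * (‖v‖ ^ 2 - ⟪dir v m (i + 1), v⟫) := by
    refine lt_of_lt_of_le ?_ (Finset.single_le_sum hnn (Finset.mem_range.mpr hK0))
    refine mul_pos (h.ht 0 hK0) ?_
    rw [zero_add, e2, inner_sub_left, inner_smul_left, real_inner_self_eq_norm_sq,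
      real_inner_comm v (m 0)]
    simp only [conj_trivial]
    nlinarith
  rw [← hd] at hpos
  exact (mul_pos_iff_of_pos_right hv2).mp hpos

/-- The reflection in the hyperplane `⟪y, m⟫ = h`. -/
def sig (h : ℝ) (m y : E) : E := y - (2 * (⟪y, m⟫ - h)) • m

/-- The composition of the first `i` reflections. -/
def S (h : ℕ → ℝ) (m : ℕ → E) : ℕ → E → E
  | 0 => fun y => y
  | i + 1 => fun y => sig (h i) (m i) (S h m i y)

theorem S_congr (h h' : ℕ → ℝ) (m m' : ℕ → E) (i : ℕ) (hh : ∀ l < i, h l = h' l)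
    (hm : ∀ l < i, m l = m' l) : S h m i = S h' m' i := by
  induction i with
  | zero => rfl
  | succ i ih =>
    funext y
    show sig (h i) (m i) (S h m i y) = sig (h' i) (m' i) (S h' m' i y)
    rw [ih (fun l hl => hh l (by omega)) (fun l hl => hm l (by omega)), hh i (by omega),
      hm i (by omega)]

theorem sig_sub (h r : ℝ) (m p e : E) (hp : ⟪p, m⟫ = h) :
    sig h m (p - r • e) = p - r • (e - (2 * ⟪e, m⟫) • m) := by
  unfold sig
  rw [inner_sub_left, inner_smul_left, hp]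
  simp only [conj_trivial]
  module

/-- The composition of reflections unfolds the path. -/
theorem S_track {x v : E} {m m' : ℕ → E} {t : ℕ → ℝ} {τ : ℝ} {h : ℕ → ℝ} (N : ℕ)
    (hd : ∀ i ≤ N + 1, dir v m' i = dir v m i)
    (hh : ∀ i ≤ N, ⟪pt x v m' t τ i, m i⟫ = h i) :
    S h m (N + 1) x = pt x v m' t τ N - (τ + ∑ i ∈ Finset.range N, t i) • dir v m (N + 1) := by
  induction N with
  | zero =>
    show sig (h 0) (m 0) x = _
    have e0 : x = pt x v m' t τ 0 - τ • v := by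
      show x = x + τ • v - τ • v
      abel
    conv_lhs => rw [e0]
    rw [sig_sub _ _ _ _ _ (hh 0 le_rfl)]
    simp only [Finset.range_zero, Finset.sum_empty, add_zero]
    rfl
  | succ N ih =>
    have ih' := ih (fun i hi => hd i (by omega)) (fun i hi => hh i (by omega))
    show sig (h (N + 1)) (m (N + 1)) (S h m (N + 1) x) = _
    have e0 : S h m (N + 1) x = pt x v m' t τ (N + 1)
        - (τ + ∑ i ∈ Finset.range (N + 1), t i) • dir v m (N + 1) := by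
      rw [ih']
      show _ = pt x v m' t τ N + t N • dir v m' (N + 1) - _
      rw [hd (N + 1) (by omega), Finset.sum_range_succ]
      module
    rw [e0, sig_sub _ _ _ _ _ (hh (N + 1) le_rfl)]
    rfl

theorem S_track' {x v : E} {m m' : ℕ → E} {t : ℕ → ℝ} {τ : ℝ} {h : ℕ → ℝ} (N : ℕ)
    (hd : ∀ i ≤ N, dir v m' i = dir v m i)
    (hh : ∀ i < N, ⟪pt x v m' t τ i, m i⟫ = h i) :
    S h m N x = pt x v m' t τ N - (τ + ∑ i ∈ Finset.range N, t i) • dir v m N := by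
  rcases Nat.eq_zero_or_pos N with rfl | hN
  · show x = x + τ • v - (τ + ∑ i ∈ Finset.range 0, t i) • v
    simp
  obtain ⟨n, rfl⟩ : ∃ n, N = n + 1 := ⟨N - 1, by omega⟩
  rw [S_track n hd (fun i hi => hh i (by omega))]
  show _ = pt x v m' t τ n + t n • dir v m' (n + 1) - _
  rw [hd (n + 1) le_rfl, Finset.sum_range_succ]
  module

/-- `S` is affine. -/
theorem S_affine (h : ℕ → ℝ) (m : ℕ → E) (i : ℕ) :
    ∃ A : E →ₗ[ℝ] E, ∀ y, S h m i y = A y + S h m i 0 := by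
  induction i with
  | zero => exact ⟨LinearMap.id, fun y => by show y = y + 0; simp⟩
  | succ i ih =>
    obtain ⟨A, hA⟩ := ih
    refine ⟨(LinearMap.id - (2 : ℝ) • ((innerₗ E (m i)).smulRight (m i))) ∘ₗ A, fun y => ?_⟩
    show sig (h i) (m i) (S h m i y) = _ + sig (h i) (m i) (S h m i 0)
    rw [hA y]
    simp only [sig, LinearMap.comp_apply, LinearMap.sub_apply, LinearMap.id_apply,
      LinearMap.smul_apply, LinearMap.smulRight_apply, innerₗ_apply_apply, inner_add_left]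
    rw [real_inner_comm (A y) (m i)]
    module

end Pool.Agent.Lib_helper94.Inv
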